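import Pool.Agent.Lib.MP_33b3f9_ag.M8.Un.TMain
import Pool.Agent.Lib.MP_33b3f9_ag.M8.Un.RF
import Pool.Agent.Lib.MP_33b3f9_ag.Un.GMain
import Pool.Agent.Lib.MP_33b3f9_ag.M8.N1

/-!
The theorem for uniformised abelian eightfolds of type II.
-/

set_option autoImplicit false

noncomputable section

namespace M8.Un

open Matrix MvPolynomial M4 M4.Un Pool.Agent.M8 Pool.Agent.Lib.MP_33b3f9_ag

theorem m_eval {α K : Type} [Field K] [Algebra K ℂ] (P : MvPolynomial (α ⊕ α) K) (v w : α → ℂ) :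
    eval v (aeval (Sum.elim X fun b => C (w b)) P : MvPolynomial α ℂ) = aeval (Sum.elim v w) P := by
  induction P using MvPolynomial.induction_on with
  | C c => simp
  | add p q hp hq => simp only [map_add, hp, hq]
  | mul_X p i hp => cases i <;> simp [hp]

variable {K : IntermediateField ℚ ℂ} {ι : Type} [Fintype ι] {J : Set (MvPolynomial ι K)}
  {p : (ν → ℝ) ≃ₗ[ℝ] (Fin 8 → ℂ)} {u : (Fin 8 → ℂ) → ι → ℂ}

theorem m_ne (h : Unif J p u) (z : Fin 8 → ℂ) : u z ≠ 0 :=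
  ((h.img (u z)).2 ⟨z, 1, one_ne_zero, (one_smul _ _).symm⟩).1

theorem m_per (h : Unif J p u) (n : ν → ℤ) (z : Fin 8 → ℂ) :
    ∃ c : ℂ, u (z + p (rz n)) = c • u z := (h.inj _ _).2 ⟨n, add_sub_cancel_left _ _⟩

/-- Translations are given by forms near every point. -/
theorem m_sub (h : Unif J p u) (z₀ w₀ : Fin 8 → ℂ) :
    ∃ (d : ℕ) (Ψ : ι → MvPolynomial ι ℂ), (∀ a, (Ψ a).IsHomogeneous d) ∧
      (∃ a, eval (u z₀) (Ψ a) ≠ 0) ∧ ∀ z, ∃ c, ∀ a, eval (u z) (Ψ a) = c * u (z - w₀) a := by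
  obtain ⟨Ψ, h0, hΨ⟩ := h.sub z₀ w₀
  refine hom_sub (Ψ := fun a => aeval (Sum.elim X fun b => C (u w₀ b)) (Ψ a)) (m_ne h) ?_
    fun z s => ?_
  · simpa only [m_eval] using h0
  · simpa only [m_eval, one_smul] using hΨ z w₀ s 1

/-- An automorphism of `ℂ` over `K` acts additively on the torus. -/
theorem m_gr (h : Unif J p u) (σ : ℂ ≃ₐ[K] ℂ) :
    Gr fun x y => ∃ c : ℂ, ∀ a, σ (u (p x) a) = c * u (p y) a := by
  have hσ : ∀ {α : Type} (v : α → ℂ) (P : MvPolynomial α K),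
      σ (aeval v P) = aeval (fun a => σ (v a)) P := fun v P =>
    (MvPolynomial.comp_aeval_apply v (σ : ℂ →ₐ[K] ℂ) P :)
  have n0 : ∀ z, (fun a => σ (u z a)) ≠ 0 := fun z e =>
    m_ne h z (funext fun a => (map_eq_zero σ).1 (congrFun e a))
  refine ⟨fun x => ?_, ?_, ?_, ?_⟩
  · obtain ⟨z, c, -, hc⟩ := (h.img fun a => σ (u (p x) a)).1 ⟨n0 _, fun P hP => by
      rw [← hσ, ((h.img (u (p x))).2 ⟨_, 1, one_ne_zero, (one_smul _ _).symm⟩).2 P hP, map_zero]⟩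
    exact ⟨p.symm z, c, fun a => by rw [p.apply_symm_apply]; exact congrFun hc a⟩
  · rintro x y x' y' ⟨c, hc⟩ ⟨c', hc'⟩
    obtain ⟨Ψ, ⟨a₀, h0⟩, hΨ⟩ := h.sub (p x) (p x')
    obtain ⟨d, hd⟩ := hΨ (p x) (p x') 1 1
    obtain ⟨d', hd'⟩ := hΨ (p y) (p y') c c'
    simp only [one_smul] at hd
    have hd0 : σ d ≠ 0 := (map_ne_zero σ).2 (left_ne_zero_of_mul (hd a₀ ▸ h0))
    refine ⟨d' / σ d, fun a => ?_⟩
    have e : (fun i => σ (Sum.elim (u (p x)) (u (p x')) i)) =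
        Sum.elim (c • u (p y)) (c' • u (p y')) := by
      funext i
      rcases i with i | i
      exacts [hc i, hc' i]
    rw [map_sub, map_sub, div_mul_eq_mul_div, eq_div_iff hd0, ← hd', ← e, ← hσ, hd, map_mul,
      mul_comm]
  · rintro x y y' ⟨c, hc⟩ ⟨c', hc'⟩
    have c0 : c ≠ 0 := fun e => n0 (p x) (funext fun a => by rw [hc, e, zero_mul, Pi.zero_apply])
    obtain ⟨n, hn⟩ := (h.inj (p y) (p y')).1 ⟨c' / c, funext fun a => by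
      rw [Pi.smul_apply, smul_eq_mul, div_mul_eq_mul_div, eq_div_iff c0, ← hc', hc, mul_comm]⟩
    exact ⟨n, p.injective (by rw [map_sub]; exact hn)⟩
  · rintro x y n n' ⟨c, hc⟩
    obtain ⟨d, hd⟩ := m_per h n (p x)
    obtain ⟨d', hd'⟩ := m_per h (-n') (p (y + rz n'))
    rw [← map_add, rz_neg, add_neg_cancel_right] at hd'
    refine ⟨σ d * c * d', fun a => ?_⟩
    rw [map_add p x, hd, Pi.smul_apply, smul_eq_mul, map_mul, hc, hd', Pi.smul_apply, smul_eq_mul]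
    ring

theorem m_img (h : Unif J p u) (v : ι → ℂ) (hv : v ≠ 0) :
    (∀ F ∈ map (algebraMap K ℂ) '' J, eval v F = 0) ↔ ∃ z, ∃ c : ℂ, v = c • u z := by
  rw [Set.forall_mem_image]
  simp only [eval_map, ← aeval_def]
  refine ⟨fun h1 => ?_, ?_⟩
  · obtain ⟨z, c, -, e⟩ := (h.img v).1 ⟨hv, h1⟩
    exact ⟨z, c, e⟩
  · rintro ⟨z, c, rfl⟩
    exact ((h.img _).2 ⟨z, c, left_ne_zero_of_smul hv, rfl⟩).2

theorem main [FiniteDimensional ℚ K] (hA : Unif J p u) {I : Matrix ν ν ℝ}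
    (hI : ∀ x, p (I *ᵥ x) = Complex.I • p x) (hE : EndII I) (ℓ : ℕ) [Fact ℓ.Prime]
    (U : Subgroup (ℂ ≃ₐ[K] ℂ)) (hU : U.FiniteIndex)
    (h : galU p u ℓ U ⊆ zeroSet ℚ_[ℓ] (mtEqns I)) :
    zcl (AlgebraicClosure ℚ_[ℓ]) (galU p u ℓ U) = zeroSet (AlgebraicClosure ℚ_[ℓ]) (mtEqns I) := by
  have hu : ∀ a, Differentiable ℂ fun z => u z a := differentiable_pi.1 hA.hol
  obtain ⟨τ, G, k, v, γ, χ, hτ, hG, hGI, hk, hγ, hvu, hv, hχ, hUv⟩ :=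
    RF u hA.hol (m_ne hA) p hI (m_per hA) fun z c e =>
      ((hA.inj z 0).1 ⟨c, e⟩).imp fun n hn => (sub_zero z).symm.trans hn
  obtain ⟨a, b, m, n, hP, hF, hX⟩ := exists_pel hE hG hτ hGI
  have hrat := rational u hu (m_ne hA) p _ (m_img hA) hA.inj (m_sub hA)
  obtain ⟨U₁, hU₁, hR⟩ := descend hτ K u hu (m_ne hA) p hI hG hGI hk v γ hγ hvu hv χ hχ hUv
    (m_gr hA) (hrat k)
  obtain ⟨U₂, hU₂, ha⟩ := descend_end hτ K u hu (m_ne hA) p hI hG hGI hk v γ hγ hvu hv χ hχ hUv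
    (m_gr hA) hrat hP.m0 hP.sim_a hF.2.1
  obtain ⟨U₃, hU₃, hb⟩ := descend_end hτ K u hu (m_ne hA) p hI hG hGI hk v γ hγ hvu hv χ hχ hUv
    (m_gr hA) hrat hP.n0 hP.sim_b hF.2.2
  refine transfer K hP hF hX hG hGI (m_gr hA) (U₁ ⊓ (U₂ ⊓ U₃)) (fun σ hσ => hR σ hσ.1)
    (fun σ hσ => ha σ hσ.2.1) (fun σ hσ => hb σ hσ.2.2) ℓ U hU
    (fun σ hσ g hg => ⟨g, ⟨σ, hσ, fun n x y hxy => ?_⟩, rfl⟩) h
  have e : ∀ x : ν → ℤ, (fun i => (x i : ℝ) / (ℓ : ℝ) ^ n) = M4.Kz.rq (ℓ ^ n) x := fun x => by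
    funext i
    simp [M4.Kz.rq, rz, div_eq_inv_mul]
  rw [e, e]
  exact hg n x y hxy

end M8.Un
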